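import Pool.Agent.H723R2.LSWJulia

set_option autoImplicit false

/-!
Size of the Fatou components of the integers for the entire `3x+1` interpolation `f₀`.
-/

open Filter Topology Metric Set

namespace Y627.LS

open Pool.Agent.H384R2.Fatou Pool.Agent.H723R2.LSW

/-- superattraction in a disc of radius comparable to `1/(|n|+1)` -/
theorem disc : ∃ c : ℝ, 0 < c ∧ c ≤ 1 ∧ ∀ (n : ℤ) (z : ℂ), ‖z - n‖ ≤ c / (|(n : ℝ)| + 1) → ∀ k : ℕ,
    (|((T^[k] n : ℤ) : ℝ)| + 1) * ‖f₀^[k] z - ((T^[k] n : ℤ) : ℂ)‖ ≤ (1 / 2) ^ 2 ^ k := by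
  obtain ⟨C, hC1, hC⟩ := f₀_near
  refine ⟨1 / (4 * C), by positivity, ?_, fun n z hz k => ?_⟩
  · rw [div_le_one (by positivity)]; linarith
  have hn0 : (0 : ℝ) < |(n : ℝ)| + 1 := by positivity
  have key : ∀ k : ℕ, 2 * C * ((|((T^[k] n : ℤ) : ℝ)| + 1) * ‖f₀^[k] z - ((T^[k] n : ℤ) : ℂ)‖) ≤
      (1 / 2) ^ 2 ^ k := by
    intro k
    induction k with
    | zero =>
      simp only [Function.iterate_zero, id, pow_zero, pow_one]
      rw [le_div_iff₀ hn0] at hz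
      have h1 : (|(n:ℝ)| + 1) * ‖z - n‖ ≤ 1 / (4 * C) := by linarith [mul_comm ‖z - n‖ (|(n:ℝ)| + 1)]
      have h2 := mul_le_mul_of_nonneg_left h1 (by positivity : (0:ℝ) ≤ 2 * C)
      have h3 : 2 * C * (1 / (4 * C)) = 1 / 2 := by field_simp; norm_num
      linarith
    | succ k ih =>
      rw [Function.iterate_succ_apply', Function.iterate_succ_apply']
      set m := T^[k] n
      set w := f₀^[k] z
      have hm0 : (1 : ℝ) ≤ |(m : ℝ)| + 1 := by linarith [abs_nonneg (m:ℝ)]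
      have hpow : ((1:ℝ) / 2) ^ 2 ^ k ≤ 1 := pow_le_one₀ (by norm_num) (by norm_num)
      have hw : ‖w - m‖ ≤ 1 := by
        have h0 : 0 ≤ ‖w - m‖ := norm_nonneg _
        have h1 : ‖w - m‖ ≤ 2 * C * ((|(m:ℝ)| + 1) * ‖w - m‖) := by
          have : (1:ℝ) ≤ 2 * C * (|(m:ℝ)| + 1) := by nlinarith
          nlinarith
        linarith
      have h2 := hC m w hw
      have h3 := T_growth m
      calc 2 * C * ((|((T m : ℤ) : ℝ)| + 1) * ‖f₀ w - ((T m : ℤ) : ℂ)‖)
          ≤ 2 * C * ((2 * (|(m:ℝ)| + 1)) * (C * (|(m:ℝ)| + 1) * ‖w - m‖ ^ 2)) := by gcongr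
        _ = (1/2) * (2 * C * ((|(m:ℝ)| + 1) * ‖w - m‖)) ^ 2 * 2 := by ring
        _ ≤ (1/2) * (((1 / 2) ^ 2 ^ k)) ^ 2 * 2 := by gcongr
        _ = (1 / 2) ^ 2 ^ (k + 1) := by rw [← pow_mul, ← pow_succ]; ring
  have h1 := key k
  have h2 : 0 ≤ (|((T^[k] n : ℤ) : ℝ)| + 1) * ‖f₀^[k] z - ((T^[k] n : ℤ) : ℂ)‖ := by positivity
  nlinarith

theorem half_pow_le (k : ℕ) : ((1:ℝ) / 2) ^ 2 ^ k ≤ (1/2) ^ k :=
  pow_le_pow_of_le_one (by norm_num) (by norm_num) (Nat.lt_two_pow_self (n := k)).le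

theorem int_subseq (a : ℕ → ℤ) : ∃ ψ : ℕ → ℕ, StrictMono ψ ∧
    ((∃ c, ∀ j, a (ψ j) = c) ∨ Tendsto (fun j => |((a (ψ j) : ℤ) : ℝ)|) atTop atTop) := by
  obtain ⟨ψ, hψ, ⟨c, hc⟩ | h⟩ := exists_subseq' (fun j => Equiv.intEquivNat (a j))
  · refine ⟨ψ, hψ, Or.inl ⟨Equiv.intEquivNat.symm c, fun j => ?_⟩⟩
    rw [← hc j, Equiv.symm_apply_apply]
  · refine ⟨ψ, hψ, Or.inr ?_⟩
    have h2 : Tendsto (fun j : ℕ => a (ψ j)) atTop cofinite := by
      have h3 : Tendsto (fun j => Equiv.intEquivNat (a (ψ j))) atTop cofinite := by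
        rw [Nat.cofinite_eq_atTop]; exact h
      have h4 := (Equiv.intEquivNat.symm.injective.tendsto_cofinite).comp h3
      have h5 : (Equiv.intEquivNat.symm ∘ fun j => Equiv.intEquivNat (a (ψ j))) =
          fun j : ℕ => a (ψ j) := by
        funext j; simp
      rwa [h5] at h4
    rw [Filter.tendsto_atTop]
    intro B
    have h3 : {m : ℤ | |(m : ℝ)| < B}.Finite := by
      apply (Set.finite_Icc (-⌈B⌉) ⌈B⌉).subset
      intro m hm
      have h6 : |(m:ℝ)| < B := hm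
      rw [abs_lt] at h6
      have h7 := Int.le_ceil B
      rw [Set.mem_Icc]
      constructor
      · have : (-(⌈B⌉ : ℤ) : ℝ) ≤ m := by linarith
        exact_mod_cast this
      · have : (m : ℝ) ≤ (⌈B⌉ : ℤ) := by linarith
        exact_mod_cast this
    have h4 := h2.eventually (h3.compl_mem_cofinite)
    filter_upwards [h4] with j hj
    by_contra h5
    push Not at h5
    exact hj h5

/-- the discs are contained in the Fatou set -/
theorem disc_fatou {c : ℝ} (hc0 : 0 < c)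
    (h : ∀ (n : ℤ) (z : ℂ), ‖z - n‖ ≤ c / (|(n : ℝ)| + 1) → ∀ k : ℕ,
      (|((T^[k] n : ℤ) : ℝ)| + 1) * ‖f₀^[k] z - ((T^[k] n : ℤ) : ℂ)‖ ≤ (1 / 2) ^ 2 ^ k) (n : ℤ) :
    ball (n : ℂ) (c / (|(n : ℝ)| + 1)) ⊆ FatouSet f₀ := by
  set r : ℝ := c / (|(n : ℝ)| + 1) with hr
  have hr0 : 0 < r := by positivity
  have hfol : ∀ z ∈ ball (n:ℂ) r, ∀ k, ‖f₀^[k] z - ((T^[k] n : ℤ) : ℂ)‖ ≤ (1/2)^k := by
    intro z hz k
    rw [mem_ball, dist_eq_norm] at hz
    have h1 := h n z hz.le k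
    have h2 : 0 ≤ |((T^[k] n : ℤ) : ℝ)| * ‖f₀^[k] z - ((T^[k] n : ℤ) : ℂ)‖ := by positivity
    have h3 := half_pow_le k
    nlinarith
  have hN : NormalOn (fun k => f₀^[k]) (ball (n:ℂ) r) := by
    intro φ
    obtain ⟨ψ, hψ, ⟨d, hd⟩ | hinf⟩ := exists_subseq' φ
    · refine ⟨ψ, hψ, Or.inl ⟨f₀^[d], ?_⟩⟩
      have : (fun j => f₀^[φ (ψ j)]) = fun _ : ℕ => f₀^[d] := by
        funext j; rw [hd j]
      show TendstoLocallyUniformlyOn (fun j => f₀^[φ (ψ j)]) (f₀^[d]) atTop (ball (n : ℂ) r)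
      rw [this]
      exact tlu_const _ _
    · obtain ⟨χ, hχ, ⟨a, ha⟩ | hbig⟩ := int_subseq (fun j => T^[φ (ψ j)] n)
      · refine ⟨ψ ∘ χ, hψ.comp hχ, Or.inl ⟨fun _ => (a : ℂ), ?_⟩⟩
        apply TendstoUniformlyOn.tendstoLocallyUniformlyOn
        rw [Metric.tendstoUniformlyOn_iff]
        intro ε hε
        have h1 : Tendsto (fun j => ((1:ℝ)/2)^(φ (ψ (χ j)))) atTop (𝓝 0) :=
          (tendsto_pow_atTop_nhds_zero_of_lt_one (by norm_num) (by norm_num)).comp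
            (hinf.comp hχ.tendsto_atTop)
        filter_upwards [h1.eventually (gt_mem_nhds hε)] with j hj z hz
        rw [dist_comm, dist_eq_norm]
        have h2 := hfol z hz (φ (ψ (χ j)))
        have h3 : T^[φ (ψ (χ j))] n = a := ha j
        rw [h3] at h2
        exact lt_of_le_of_lt h2 hj
      · refine ⟨ψ ∘ χ, hψ.comp hχ, Or.inr ?_⟩
        intro K hK _ R
        filter_upwards [hbig.eventually (eventually_ge_atTop (R + 1))] with j hj z hz
        have h2 := hfol z (hK hz) (φ (ψ (χ j)))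
        have h3 : ((1:ℝ)/2)^(φ (ψ (χ j))) ≤ 1 := pow_le_one₀ (by norm_num) (by norm_num)
        have h4 : ‖((T^[φ (ψ (χ j))] n : ℤ) : ℂ)‖ = |((T^[φ (ψ (χ j))] n : ℤ) : ℝ)| :=
          Complex.norm_intCast _
        have h5 : ‖((T^[φ (ψ (χ j))] n : ℤ) : ℂ)‖ ≤
            ‖f₀^[φ (ψ (χ j))] z‖ + ‖f₀^[φ (ψ (χ j))] z - ((T^[φ (ψ (χ j))] n : ℤ) : ℂ)‖ := by
          have := norm_sub_norm_le ((T^[φ (ψ (χ j))] n : ℤ) : ℂ) (f₀^[φ (ψ (χ j))] z)
          rw [norm_sub_rev] at this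
          linarith
        show R ≤ ‖f₀^[φ (ψ (χ j))] z‖
        linarith
  intro z hz
  rw [mem_ball] at hz
  refine ⟨r - dist z n, by linarith, normalOn_mono hN ?_⟩
  apply ball_subset_ball'
  linarith

/-! ### real traces -/

/-- the segment from `n` to `n + t` is contained in the Fatou set -/
def Seg (n : ℤ) (t : ℝ) : Prop := ∀ x ∈ uIcc (n:ℝ) (n + t), (x : ℂ) ∈ FatouSet f₀

theorem seg_le {m : ℤ} {t s : ℝ} (h : Seg m t) (hs : s ∈ uIcc (0:ℝ) t) : Seg m s := by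
  intro x hx
  apply h
  rw [mem_uIcc] at *
  rcases hs with ⟨a, b⟩ | ⟨a, b⟩ <;> rcases hx with ⟨c, d⟩ | ⟨c, d⟩
  · left; constructor <;> linarith
  · left; constructor <;> linarith
  · right; constructor <;> linarith
  · right; constructor <;> linarith

theorem seg_not_right {m : ℤ} {t : ℝ} (h : Seg m t) (j : ℤ) (hj : j ≠ -2) (h1 : m ≤ j)
    (h2 : (j:ℝ) + 1 ≤ m + t) : False := by
  obtain ⟨x, a, b, hx⟩ := jul_all hj
  apply hx
  apply h
  have h1' : (m:ℝ) ≤ j := by exact_mod_cast h1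
  rw [mem_uIcc]
  left; constructor <;> linarith

theorem seg_not_left {m : ℤ} {t : ℝ} (h : Seg m t) (j : ℤ) (hj : j ≠ -2) (h1 : j + 1 ≤ m)
    (h2 : (m:ℝ) + t ≤ j) : False := by
  obtain ⟨x, a, b, hx⟩ := jul_all hj
  apply hx
  apply h
  have h1' : (j:ℝ) + 1 ≤ m := by exact_mod_cast h1
  rw [mem_uIcc]
  right; constructor <;> linarith

theorem seg_lt_two {m : ℤ} {t : ℝ} (h : Seg m t) : |t| < 2 := by
  rw [abs_lt]
  constructor
  · by_contra hc
    push Not at hc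
    by_cases h1 : m - 1 = -2
    · exact seg_not_left h (m - 2) (by omega) (by omega) (by push_cast; linarith)
    · exact seg_not_left h (m - 1) h1 (by omega) (by push_cast; linarith)
  · by_contra hc
    push Not at hc
    by_cases h1 : m = -2
    · exact seg_not_right h (m + 1) (by omega) (by omega) (by push_cast; linarith)
    · exact seg_not_right h m h1 le_rfl (by linarith)

theorem seg_lt_one {m : ℤ} {t : ℝ} (h : Seg m t) (h1 : m ≠ -1) (h2 : m ≠ -2) : |t| < 1 := by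
  rw [abs_lt]
  constructor
  · by_contra hc
    push Not at hc
    exact seg_not_left h (m - 1) (by omega) (by omega) (by push_cast; linarith)
  · by_contra hc
    push Not at hc
    exact seg_not_right h m h2 le_rfl (by linarith)

theorem seg_push {m : ℤ} {t : ℝ} (h : Seg m t) : Seg (T m) (F (m + t) - T m) := by
  intro y hy
  have e : ((T m : ℤ) : ℝ) + (F (m + t) - T m) = F (m + t) := by ring
  rw [e, ← F_int] at hy
  obtain ⟨x, hx, rfl⟩ := intermediate_value_uIcc (F_cont.continuousOn (s := uIcc (m:ℝ) (m + t))) hy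
  rw [F_coe]
  exact fatou_forward f₀_open (h x hx)

/-- quadratic lower bound near large integers -/
theorem lower : ∃ c N : ℝ, 0 < c ∧ 3 ≤ N ∧ ∀ (m : ℤ) (t : ℝ), N ≤ |(m : ℝ)| → |t| ≤ 1 →
    c * (|(m : ℝ)| + 1) * t ^ 2 ≤ |F (m + t) - T m| := by
  have hpi0 : (Real.pi : ℂ) ≠ 0 := by exact_mod_cast Real.pi_ne_zero
  have hpi : ∀ z : ℂ, HasDerivAt (fun z : ℂ => (Real.pi : ℂ) * z) Real.pi z := fun z => by
    simpa using (hasDerivAt_id z).const_mul (Real.pi : ℂ)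
  have hc : ∀ z : ℂ, HasDerivAt (fun z : ℂ => Complex.cos (Real.pi * z))
      (-Complex.sin (Real.pi * z) * Real.pi) z := fun z =>
    (Complex.hasDerivAt_cos _).comp z (hpi z)
  have hs : ∀ z : ℂ, HasDerivAt (fun z : ℂ => Complex.sin (Real.pi * z))
      (Complex.cos (Real.pi * z) * Real.pi) z := fun z =>
    (Complex.hasDerivAt_sin _).comp z (hpi z)
  set A : ℂ → ℂ := fun h => h - 1 / Real.pi * (Complex.cos (Real.pi * h) *
    Complex.sin (Real.pi * h)) with hA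
  set B : ℂ → ℂ := fun h => 1 / Real.pi * Complex.sin (Real.pi * h) -
    h * Complex.cos (Real.pi * h) with hB
  have dA : ∀ h, HasDerivAt A (1 - 1 / Real.pi * ((-Complex.sin (Real.pi * h) * Real.pi) *
      Complex.sin (Real.pi * h) + Complex.cos (Real.pi * h) *
        (Complex.cos (Real.pi * h) * Real.pi))) h := fun h =>
    (hasDerivAt_id h).sub (((hc h).mul (hs h)).const_mul _)
  have dB : ∀ h, HasDerivAt B (1 / Real.pi * (Complex.cos (Real.pi * h) * Real.pi) -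
      (1 * Complex.cos (Real.pi * h) + h * (-Complex.sin (Real.pi * h) * Real.pi))) h := fun h =>
    ((hs h).const_mul _).sub ((hasDerivAt_id h).mul (hc h))
  have dA0 : HasDerivAt A 0 0 := by
    convert dA 0 using 1
    simp
  have dB0 : HasDerivAt B 0 0 := by
    convert dB 0 using 1
    simp
  obtain ⟨CA, hCA0, hCA⟩ := quad (fun h => (dA h).differentiableAt) (by simp [hA]) dA0
  obtain ⟨CB, hCB0, hCB⟩ := quad (fun h => (dB h).differentiableAt) (by simp [hB]) dB0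
  refine ⟨1/2, 2 * (CA + CB) + 5, by norm_num, by linarith, fun m t hm ht => ?_⟩
  have hsm : Complex.sin (Real.pi * (m : ℂ)) = 0 := by
    rw [mul_comm]; exact Complex.sin_int_mul_pi m
  obtain ⟨ε, hε, hcm⟩ : ∃ ε : ℂ, (ε = 1 ∨ ε = -1) ∧ Complex.cos (Real.pi * (m : ℂ)) = ε := by
    refine ⟨_, ?_, rfl⟩
    have := Complex.sin_sq_add_cos_sq ((Real.pi : ℂ) * (m : ℂ))
    rw [hsm] at this
    have h2 : Complex.cos (Real.pi * (m : ℂ)) ^ 2 = 1 := by simpa using this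
    have h3 : (Complex.cos (Real.pi * (m : ℂ)) - 1) * (Complex.cos (Real.pi * (m : ℂ)) + 1) = 0 := by
      linear_combination h2
    rcases mul_eq_zero.1 h3 with h4 | h4
    · exact Or.inl (by linear_combination h4)
    · exact Or.inr (by linear_combination h4)
  have hε2 : ε ^ 2 = 1 := by rcases hε with rfl | rfl <;> norm_num
  have hT : (T m : ℂ) = m / 2 + (m + 1 / 2) * ((1 - ε) / 2) := by
    rw [← f₀_int]; unfold f₀; rw [hsm, hcm]; ring
  set h : ℂ := (t : ℂ) with hh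
  have e1 : Complex.cos (Real.pi * ((m:ℂ) + h)) = ε * Complex.cos (Real.pi * h) := by
    rw [mul_add, Complex.cos_add, hsm, hcm]; ring
  have e2 : Complex.sin (Real.pi * ((m:ℂ) + h)) = ε * Complex.sin (Real.pi * h) := by
    rw [mul_add, Complex.sin_add, hsm, hcm]; ring
  have key : f₀ ((m:ℂ) + h) - (T m : ℂ) = A h + ε / 2 * B h +
      ε / 2 * ((m : ℂ) + 1 / 2) * (1 - Complex.cos (Real.pi * h)) := by
    unfold f₀
    rw [hT, e1, e2]
    simp only [hA, hB]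
    linear_combination (-1 / (Real.pi : ℂ) * Complex.cos (Real.pi * h) *
      Complex.sin (Real.pi * h)) * hε2
  have hεn : ‖ε / 2‖ = 1 / 2 := by rcases hε with rfl | rfl <;> norm_num
  have hhn : ‖h‖ = |t| := by rw [hh, Complex.norm_real, Real.norm_eq_abs]
  have hh2 : ‖h‖ ^ 2 = t ^ 2 := by rw [hhn, sq_abs]
  have bA := hCA h (by rw [hhn]; exact ht)
  have bB := hCB h (by rw [hhn]; exact ht)
  rw [hh2] at bA bB
  have hD : 2 * t ^ 2 ≤ ‖1 - Complex.cos (Real.pi * h)‖ := by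
    have e3 : 1 - Complex.cos (Real.pi * h) = ((1 - Real.cos (Real.pi * t) : ℝ) : ℂ) := by
      rw [hh]; push_cast; rfl
    rw [e3, Complex.norm_real, Real.norm_eq_abs]
    have h5 := Real.cos_le_one_sub_mul_cos_sq (x := Real.pi * t) (by
      rw [abs_mul, abs_of_pos Real.pi_pos]
      nlinarith [Real.pi_pos, abs_nonneg t])
    have e4 : 2 / Real.pi ^ 2 * (Real.pi * t) ^ 2 = 2 * t ^ 2 := by
      field_simp
    rw [e4] at h5
    refine le_trans ?_ (le_abs_self _)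
    linarith
  have hm' : |(m:ℝ)| - 1/2 ≤ ‖(m : ℂ) + 1 / 2‖ := by
    have h6 := norm_sub_norm_le ((m:ℂ)) (-(1/2) : ℂ)
    have h7 : (m:ℂ) - (-(1/2)) = (m:ℂ) + 1/2 := by ring
    rw [h7, Complex.norm_intCast] at h6
    have h8 : ‖(-(1/2) : ℂ)‖ = 1/2 := by norm_num
    rw [h8] at h6
    exact h6
  have hreal : |F (m + t) - T m| = ‖f₀ ((m:ℂ) + h) - (T m : ℂ)‖ := by
    have e5 : f₀ ((m:ℂ) + h) - (T m : ℂ) = ((F (m + t) - T m : ℝ) : ℂ) := by
      have := F_coe ((m:ℝ) + t)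
      push_cast at this ⊢
      rw [hh, ← this]
    rw [e5, Complex.norm_real, Real.norm_eq_abs]
  rw [hreal, key]
  have h9 : ‖ε / 2 * ((m : ℂ) + 1 / 2) * (1 - Complex.cos (Real.pi * h))‖ =
      1/2 * ‖(m : ℂ) + 1 / 2‖ * ‖1 - Complex.cos (Real.pi * h)‖ := by
    rw [norm_mul, norm_mul, hεn]
  have h10 : 1/2 * ‖(m : ℂ) + 1 / 2‖ * ‖1 - Complex.cos (Real.pi * h)‖ - ‖A h + ε / 2 * B h‖ ≤
      ‖A h + ε / 2 * B h + ε / 2 * ((m : ℂ) + 1 / 2) * (1 - Complex.cos (Real.pi * h))‖ := by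
    have := norm_sub_norm_le (ε / 2 * ((m : ℂ) + 1 / 2) * (1 - Complex.cos (Real.pi * h)))
      (-(A h + ε / 2 * B h))
    rw [norm_neg, h9] at this
    refine this.trans (le_of_eq ?_)
    congr 1; ring
  refine le_trans ?_ h10
  have h11 : ‖A h + ε / 2 * B h‖ ≤ (CA + CB) * t ^ 2 := by
    calc ‖A h + ε / 2 * B h‖ ≤ ‖A h‖ + ‖ε / 2 * B h‖ := norm_add_le _ _
      _ = ‖A h‖ + 1/2 * ‖B h‖ := by rw [norm_mul, hεn]
      _ ≤ CA * t ^ 2 + 1/2 * (CB * t ^ 2) := by gcongr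
      _ ≤ (CA + CB) * t ^ 2 := by nlinarith [mul_nonneg hCB0 (sq_nonneg t)]
  have ht2 : 0 ≤ t ^ 2 := sq_nonneg t
  have h12 : 1/2 * (|(m:ℝ)| - 1/2) * (2 * t ^ 2) ≤
      1/2 * ‖(m : ℂ) + 1 / 2‖ * ‖1 - Complex.cos (Real.pi * h)‖ := by
    apply mul_le_mul _ hD (by positivity) (by positivity)
    linarith
  have h13 : 1/2 * (|(m:ℝ)| + 1) * t ^ 2 ≤ 1/2 * (|(m:ℝ)| - 1/2) * (2 * t ^ 2) - (CA + CB) * t ^ 2 := by
    nlinarith
  linarith

/-- **the real traces have length `O(1/(|n|+1))`** -/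
theorem traces : ∃ W : ℝ, 1 ≤ W ∧ ∀ (n : ℤ) (t : ℝ), Seg n t → |t| * (|(n:ℝ)| + 1) ≤ W := by
  obtain ⟨c, N, hc, hN, hlow⟩ := lower
  set W : ℝ := 2 * (N + 1) + 2 / c with hW
  have hcpos : 0 < 2 / c := by positivity
  have hW1 : 1 ≤ W := by rw [hW]; linarith
  have hWc : 2 / c ≤ W := by rw [hW]; linarith
  have hWN : 2 * (N + 1) ≤ W := by rw [hW]; linarith
  -- one step
  have key : ∀ k : ℕ, ∀ (n : ℤ) (t : ℝ), Seg n t →
      (|t| * (|(n:ℝ)| + 1)) ^ 2 ^ k ≤ W ^ 2 ^ k * (2 ^ (k + 1) * (|(n:ℝ)| + 1)) := by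
    intro k
    induction k with
    | zero =>
      intro n t h
      have h1 := seg_lt_two h
      have h2 : (0:ℝ) < |(n:ℝ)| + 1 := by positivity
      simp only [pow_zero, pow_one, zero_add]
      nlinarith [abs_nonneg t]
    | succ k ih =>
      intro n t h
      have hn1 : (1:ℝ) ≤ |(n:ℝ)| + 1 := by linarith [abs_nonneg (n:ℝ)]
      by_cases hn : N ≤ |(n:ℝ)|
      · have hne1 : n ≠ -1 := by
          rintro rfl
          norm_num at hn; linarith
        have hne2 : n ≠ -2 := by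
          rintro rfl
          norm_num at hn; linarith
        have ht := seg_lt_one h hne1 hne2
        have h1 := hlow n t hn ht.le
        have h2 := ih (T n) _ (seg_push h)
        have h3 : |(n:ℝ)| + 1 ≤ 2 * (|((T n : ℤ):ℝ)| + 1) := by
          have : |n| + 1 ≤ 2 * (|T n| + 1) := by
            unfold T
            split_ifs with h
            · rcases abs_cases (n / 2) with h1 | h1 <;> rcases abs_cases n with h2 | h2 <;> omega
            · rcases abs_cases ((3 * n + 1) / 2) with h1 | h1 <;> rcases abs_cases n with h2 | h2 <;> omega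
          have h2 : ((|n| + 1 : ℤ) : ℝ) ≤ ((2 * (|T n| + 1) : ℤ) : ℝ) := by exact_mod_cast this
          push_cast at h2
          exact h2
        have h4 := T_growth n
        set a := |t| * (|(n:ℝ)| + 1) with ha
        set b := |F (n + t) - T n| * (|((T n : ℤ):ℝ)| + 1) with hb
        have ha0 : 0 ≤ a := by positivity
        have hb0 : 0 ≤ b := by positivity
        have h5 : a ^ 2 ≤ W * b := by
          have h6 : a ^ 2 = (|(n:ℝ)| + 1) * ((|(n:ℝ)| + 1) * t ^ 2) := by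
            rw [ha, mul_pow, sq_abs]; ring
          have h7 : (|(n:ℝ)| + 1) * t ^ 2 ≤ 1 / c * |F (n + t) - T n| := by
            rw [one_div, ← div_eq_inv_mul, le_div_iff₀ hc]
            linarith
          have h8 : a ^ 2 ≤ (2 * (|((T n : ℤ):ℝ)| + 1)) * (1 / c * |F (n + t) - T n|) := by
            rw [h6]
            apply mul_le_mul h3 h7 (by positivity) (by positivity)
          have h9 : (2 * (|((T n : ℤ):ℝ)| + 1)) * (1 / c * |F (n + t) - T n|) = 2 / c * b := by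
            rw [hb]; ring
          rw [h9] at h8
          exact h8.trans (mul_le_mul_of_nonneg_right hWc hb0)
        calc a ^ 2 ^ (k + 1) = (a ^ 2) ^ 2 ^ k := by rw [pow_succ', pow_mul]
          _ ≤ (W * b) ^ 2 ^ k := by gcongr
          _ = W ^ 2 ^ k * b ^ 2 ^ k := by rw [mul_pow]
          _ ≤ W ^ 2 ^ k * (W ^ 2 ^ k * (2 ^ (k + 1) * (|((T n : ℤ):ℝ)| + 1))) := by gcongr
          _ ≤ W ^ 2 ^ k * (W ^ 2 ^ k * (2 ^ (k + 1) * (2 * (|(n:ℝ)| + 1)))) := by gcongr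
          _ = W ^ 2 ^ (k + 1) * (2 ^ (k + 1 + 1) * (|(n:ℝ)| + 1)) := by
              have : W ^ 2 ^ (k + 1) = W ^ 2 ^ k * W ^ 2 ^ k := by
                rw [← pow_add]; congr 1; rw [pow_succ]; ring
              rw [this]; ring
      · push Not at hn
        have h1 := seg_lt_two h
        have h2 : |t| * (|(n:ℝ)| + 1) ≤ W := by
          have h0 := abs_nonneg t
          have h3 : |t| * (|(n:ℝ)| + 1) ≤ 2 * (N + 1) := by
            apply mul_le_mul h1.le (by linarith) (by positivity) (by norm_num)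
          linarith
        have h3 : (|t| * (|(n:ℝ)| + 1)) ^ 2 ^ (k + 1) ≤ W ^ 2 ^ (k + 1) := by gcongr
        have h4 : (1:ℝ) ≤ 2 ^ (k + 1 + 1) * (|(n:ℝ)| + 1) := by
          have : (1:ℝ) ≤ 2 ^ (k + 1 + 1) := one_le_pow₀ (by norm_num)
          nlinarith
        have h5 : 0 ≤ W ^ 2 ^ (k + 1) := by positivity
        nlinarith
  refine ⟨W, hW1, fun n t h => ?_⟩
  by_contra hcon
  push Not at hcon
  set q : ℝ := |t| * (|(n:ℝ)| + 1) / W with hq
  have hW0 : 0 < W := by linarith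
  have hq1 : 1 < q := by rw [hq, one_lt_div hW0]; exact hcon
  have hk : ∀ k : ℕ, q ^ 2 ^ k ≤ 2 ^ (k + 1) * (|(n:ℝ)| + 1) := by
    intro k
    rw [hq, div_pow, div_le_iff₀ (by positivity)]
    have := key k n t h
    linarith
  -- `q ^ 2 ^ k` grows faster
  have h1 : Tendsto (fun j : ℕ => (j:ℝ) / q ^ j) atTop (𝓝 0) := by
    have := tendsto_pow_const_div_const_pow_of_one_lt 1 hq1
    simpa using this
  have h2 : Tendsto (fun k : ℕ => ((2 ^ k : ℕ) : ℝ) / q ^ (2 ^ k)) atTop (𝓝 0) :=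
    h1.comp (tendsto_pow_atTop_atTop_of_one_lt (r := 2) (by norm_num))
  have hn1 : (0:ℝ) < |(n:ℝ)| + 1 := by positivity
  have h3 : (0:ℝ) < 1 / (4 * (|(n:ℝ)| + 1)) := by positivity
  obtain ⟨k, hk2⟩ := (h2.eventually (gt_mem_nhds h3)).exists
  have h4 := hk k
  have h5 : 0 < q ^ (2 ^ k) := by positivity
  rw [div_lt_div_iff₀ h5 (by positivity)] at hk2
  push_cast at hk2
  have h6 : (2:ℝ) ^ (k+1) = 2 * 2 ^ k := by rw [pow_succ]; ring
  rw [h6] at h4
  have h7 : (0:ℝ) < 2 ^ k := by positivity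
  nlinarith

end Y627.LS
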